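import Pool.Agent.Helper80_TWC.Stmts
import Pool.Agent.Helper80_RS.Glue

/-!
# MP_ff6f12_co, squad TWC: module SYS (helper25)
-/

set_option autoImplicit false

open SimpleGraph

namespace Pool.Agent.TWC80.H25

open Pool.Agent.RS80 Pool.Agent.RS81 Pool.Agent.SEP60

theorem em_inj {I Y E Q : Type} (ty : I → Bool) (inc : E → I → Y)
    (hinc : ∀ e, Function.Injective (inc e)) (e : E) :
    Function.Injective (em (Q := Q) ty inc e) := by
  rintro (i | z) (j | z') h
  · simp only [em, Sum.inl.injEq, Prod.mk.injEq] at h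
    exact congrArg Sum.inl (hinc e h.1)
  · simp [em] at h
  · simp [em] at h
  · simp only [em, Sum.inr.injEq, Prod.mk.injEq, true_and] at h
    exact congrArg Sum.inr h

theorem sys_adj {I Y E Q : Type} (ty : I → Bool) (inc : E → I → Y) (P : SimpleGraph (I ⊕ Q))
    {a b : (Y × Bool) ⊕ (E × Q)} (h : (Sys ty inc P).Adj a b) :
    ∃ e z z', P.Adj z z' ∧ a = em ty inc e z ∧ b = em ty inc e z' := by
  rw [Sys, SimpleGraph.fromRel_adj] at h
  rcases h.2 with h | ⟨e, z, z', h1, h2, h3⟩
  · exact h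
  · exact ⟨e, z', z, h1.symm, h3, h2⟩

theorem sys : SysStmt := by
  intro V _ B hB I Y E Q _ _ _ _ ty inc P hinc hleaf hfree hcon
  obtain ⟨f⟩ := hcon
  have finj : ∀ u v, f u = f v → u = v := fun u v h => f.injective h
  have hedge : ∀ u v, B.Adj u v →
      ∃ e z z', P.Adj z z' ∧ f u = em ty inc e z ∧ f v = em ty inc e z' :=
    fun u v h => sys_adj ty inc P (f.toHom.map_adj h)
  obtain ⟨v0, v1, h01⟩ : ∃ u v, B.Adj u v := by
    obtain ⟨v⟩ := hB.2.1.nonempty
    obtain ⟨u, hu⟩ := hB.exists_adj v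
    exact ⟨v, u, hu⟩
  obtain ⟨e0, -⟩ := hedge v0 v1 h01
  classical
  -- the hyperedge of an edge
  let g : V × V → E := fun p => if h : B.Adj p.1 p.2 then (hedge p.1 p.2 h).choose else e0
  have hg : ∀ u v, B.Adj u v →
      ∃ z z', P.Adj z z' ∧ f u = em ty inc (g (u, v)) z ∧ f v = em ty inc (g (u, v)) z' := by
    intro u v h
    have h1 : g (u, v) = (hedge u v h).choose := dif_pos h
    rw [h1]
    exact (hedge u v h).choose_spec
  let D : Set E := {e | ∃ u v, B.Adj u v ∧ g (u, v) = e}
  have hD1 : D.Nonempty := ⟨g (v0, v1), v0, v1, h01, rfl⟩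
  have hD2 : D.ncard ≤ Nat.card V ^ 2 := by
    have h1 : D ⊆ g '' Set.univ := by
      rintro e ⟨u, v, _, h⟩
      exact ⟨(u, v), Set.mem_univ _, h⟩
    have h2 : D.ncard ≤ (g '' Set.univ).ncard := Set.ncard_le_ncard h1 (Set.toFinite _)
    have h3 : (g '' Set.univ).ncard ≤ (Set.univ : Set (V × V)).ncard :=
      Set.ncard_image_le (Set.toFinite _)
    rw [Set.ncard_univ, Nat.card_prod] at h3
    rw [sq]
    exact h2.trans h3
  obtain ⟨e, heD, he⟩ := hleaf D hD1 hD2
  let bad : I → Prop := fun i => ∃ e' ∈ D, e' ≠ e ∧ ∃ l, inc e' l = inc e i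
  have hbad : ∀ i j, bad i → bad j → i = j := he
  let X : V → Prop := fun v =>
    (∃ q, f v = em ty inc e (.inr q)) ∨ ∃ i, ¬ bad i ∧ f v = em ty inc e (.inl i)
  let Z : V → Prop := fun v => ∃ i, bad i ∧ f v = em ty inc e (.inl i)
  have hXZ : ∀ v z, f v = em ty inc e z → X v ∨ Z v := by
    rintro v (i | q) h
    · by_cases hi : bad i
      · exact Or.inr ⟨i, hi, h⟩
      · exact Or.inl (Or.inr ⟨i, hi, h⟩)
    · exact Or.inl (Or.inl ⟨q, h⟩)
  have hZ : ∀ u v, Z u → Z v → u = v := by
    rintro u v ⟨i, hi, h1⟩ ⟨j, hj, h2⟩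
    have := hbad i j hi hj
    subst this
    exact finj u v (h1.trans h2.symm)
  -- the edges at `X` belong to `e`
  have hX : ∀ u v, B.Adj u v → X u ∨ X v → g (u, v) = e := by
    have key : ∀ u v w z, B.Adj u v → X w → f w = em ty inc (g (u, v)) z → g (u, v) = e := by
      rintro u v w z huv (⟨q, hq⟩ | ⟨i, hi, hq⟩) hw
      · rw [hw] at hq
        rcases z with l | z
        · simp [em] at hq
        · simp only [em, Sum.inr.injEq, Prod.mk.injEq] at hq
          exact hq.1
      · rw [hw] at hq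
        rcases z with l | z
        · simp only [em, Sum.inl.injEq, Prod.mk.injEq] at hq
          by_contra hne
          exact hi ⟨g (u, v), ⟨u, v, huv, rfl⟩, hne, l, hq.1⟩
        · simp [em] at hq
    intro u v huv h
    obtain ⟨z, z', _, h1, h2⟩ := hg u v huv
    rcases h with h | h
    · exact key u v u z huv h h1
    · exact key u v v z' huv h h2
  have hstep : ∀ u v, B.Adj u v → X u → X v ∨ Z v := by
    intro u v huv hu
    obtain ⟨z, z', _, _, h2⟩ := hg u v huv
    rw [hX u v huv (Or.inl hu)] at h2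
    exact hXZ v z' h2
  obtain ⟨a, ha⟩ : ∃ a, X a := by
    obtain ⟨u, v, huv, hge⟩ := heD
    obtain ⟨z, z', hz, h1, h2⟩ := hg u v huv
    rw [hge] at h1 h2
    rcases hXZ u z h1 with h | h
    · exact ⟨u, h⟩
    · rcases hXZ v z' h2 with h' | h'
      · exact ⟨v, h'⟩
      · exact absurd (hZ u v h h') huv.ne
  have hXZn : ∀ v, X v → ¬ Z v := by
    rintro v (⟨q, hq⟩ | ⟨i, hi, hq⟩) ⟨j, hj, h⟩
    · rw [h] at hq
      exact absurd (em_inj ty inc hinc e hq) (by simp)
    · rw [h] at hq
      have := em_inj ty inc hinc e hq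
      simp only [Sum.inl.injEq] at this
      subst this
      exact hi hj
  have hall : ∀ v, X v ∨ Z v := by
    by_cases hz : ∃ w, Z w
    · obtain ⟨w, hw⟩ := hz
      intro v
      by_cases hvw : v = w
      · exact Or.inr (hvw ▸ hw)
      · left
        refine hB.prop X w (fun u v huv hu hv => ?_) ha (fun h => hXZn a ha (h ▸ hw)) v hvw
        rcases hstep u v huv hu with h | h
        · exact h
        · exact absurd (hZ v w h hw) hv
    · push Not at hz
      intro v
      left
      refine prop_of_preconnected hB.2.1.preconnected X (fun u v huv hu => ?_) ha v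
      rcases hstep u v huv hu with h | h
      · exact h
      · exact absurd h (hz v)
  have hem : ∀ v, ∃ z, f v = em ty inc e z := by
    intro v
    rcases hall v with (⟨q, h⟩ | ⟨i, _, h⟩) | ⟨i, _, h⟩
    · exact ⟨_, h⟩
    · exact ⟨_, h⟩
    · exact ⟨_, h⟩
  choose k hk using hem
  have kadj : ∀ u v, B.Adj u v → P.Adj (k u) (k v) := by
    intro u v huv
    have h1 : X u ∨ X v := by
      rcases hall u with h | h
      · exact Or.inl h
      · rcases hall v with h' | h'
        · exact Or.inr h'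
        · exact absurd (hZ u v h h') huv.ne
    obtain ⟨z, z', hz, h2, h3⟩ := hg u v huv
    rw [hX u v huv h1] at h2 h3
    have h4 : z = k u := em_inj ty inc hinc e (h2.symm.trans (hk u))
    have h5 : z' = k v := em_inj ty inc hinc e (h3.symm.trans (hk v))
    rw [← h4, ← h5]
    exact hz
  refine hfree ⟨⟨⟨k, fun {u v} h => kadj u v h⟩, fun u v h => finj u v ?_⟩⟩
  have h' : k u = k v := h
  rw [hk u, hk v, h']

end Pool.Agent.TWC80.H25
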